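import Pool.Agent.H97.NR.Asm

/-!
Classification of the nilpotent rings of order `p ^ 4`.
-/

namespace Pool.Agent.Results.MP_f0f2c3_al.OrderPFour

open Pool.NR

universe u

/-- **Classification of the nilpotent rings of order `p ^ 4`.** For every table `T` of the explicit
list `Listed p` there is a nilpotent ring `N T` of order `p ^ 4`, given by generators
`g 0, ..., g 3` with the relations of the table; every nilpotent ring of order `p ^ 4` is
isomorphic to `N T` for exactly one `T` on the list. -/
theorem result (p : ℕ) [Fact p.Prime] :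
    (Nat.card {T : Tab // Listed p T} =
      if p = 2 then 221 else if p = 3 then 429 else
        p ^ 4 + 2 * p ^ 3 + 8 * p ^ 2 + 41 * p + 96 + 2 * Nat.gcd 3 (p - 1) +
          Nat.gcd 4 (p - 1)) ∧
    ∃ (N : {T : Tab // Listed p T} → Type) (_ : ∀ T, NonUnitalRing (N T)),
      (∀ T, Nat.card (N T) = p ^ 4 ∧ IsNilp (N T)) ∧
      ∀ (R : Type u) [NonUnitalRing R], Nat.card R = p ^ 4 →
        (∀ T, Nonempty (R ≃+* N T) ↔ HasTab p R T.1) ∧
        (IsNilp R → ∃! T, Nonempty (R ≃+* N T)) :=
  final_all p

end Pool.Agent.Results.MP_f0f2c3_al.OrderPFour
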